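import Pool.Agent.Lib.MP_bc8021_gt.Gen

open Pool.Agent.Lib.MP_bc8021_gt in
/-- A finite product of R0 spaces (in particular of T1 spaces), each with a base of point-finite
rank, is metacompact. Special case of the hand-in ProductCriterion. -/
theorem Pool.Agent.Variants.MP_bc8021_gt.ProductMetacompact.result
    {ι : Type*} [Finite ι] (X : ι → Type*) [∀ i, TopologicalSpace (X i)] [∀ i, R0Space (X i)]
    (h : ∀ i, ∃ B : Set (Set (X i)),
      TopologicalSpace.IsTopologicalBasis B ∧ PointFiniteRank B) :
    Metacompact (∀ i, X i) :=
  (metacompact_pi_iff X h).2 fun _ _ => isCompact_closure_singleton
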